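import Mathlib
import Pool.Agent.N173.BG.Stm

/-!
Project BG (helper173): constant radius at the cost of more frequencies (DBL).
-/

set_option autoImplicit false

namespace Pool.Agent.N665.BG

open Finset Pool.Agent.TH858 Pool.Agent.TH858.CB

lemma dbl {N : ℕ} [NeZero N] (c : ZMod N) (s : ℕ)
    (h : ∀ i < s + 1, nn (((2 ^ i : ℕ) : ZMod N) * c) ≤ 1 / 8) : nn c ≤ 1 / (8 * 2 ^ s) := by
  obtain ⟨θ, hθ⟩ : ∃ θ : ℝ, θ = (c.val : ℝ) / N + ((-round ((c.val : ℝ) / N) : ℤ) : ℝ) := ⟨_, rfl⟩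
  have hmul : ∀ i : ℕ, nint ((2 : ℝ) ^ i * θ) = nn (((2 ^ i : ℕ) : ZMod N) * c) := by
    intro i
    have := nint_mul c ((2 ^ i : ℕ) : ℤ) (-round ((c.val : ℝ) / N))
    rw [hθ]
    push_cast at this ⊢
    exact this
  have hθabs : |θ| = nn c := by
    rw [hθ]
    unfold nn nint
    congr 1
    push_cast
    ring
  have key : ∀ i < s + 1, |(2 : ℝ) ^ i * θ| ≤ 1 / 8 := by
    intro i
    induction i with
    | zero =>
      intro _
      have h0 := h 0 (by omega)
      have h1 : nn (((2 ^ 0 : ℕ) : ZMod N) * c) = nn c := by simp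
      rw [h1] at h0
      rw [pow_zero, one_mul, hθabs]
      exact h0
    | succ i ih =>
      intro hi
      have h1 := ih (by omega)
      have h2 : |(2 : ℝ) ^ (i + 1) * θ| ≤ 1 / 4 := by
        have : (2 : ℝ) ^ (i + 1) * θ = 2 * ((2 : ℝ) ^ i * θ) := by ring
        rw [this, abs_mul, abs_of_pos two_pos]
        linarith
      have h3 := h (i + 1) hi
      rw [← hmul, nint_of_small (by linarith)] at h3
      exact h3
  have h3 := key s (by omega)
  rw [abs_mul, abs_of_pos (by positivity), hθabs] at h3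
  rw [le_div_iff₀ (by positivity)]
  linarith

/-- DBL. -/
theorem t_DBL : Pool.Agent.N173.BG.S_DBL := by
  classical
  intro N _ Γ s
  refine ⟨(Finset.range (s + 1)).biUnion (fun i => Γ.image fun g => ((2 ^ i : ℕ) : ZMod N) * g),
    ?_, ?_⟩
  · refine card_biUnion_le.trans ?_
    calc ∑ i ∈ Finset.range (s + 1), (Γ.image fun g => ((2 ^ i : ℕ) : ZMod N) * g).card
        ≤ ∑ _i ∈ Finset.range (s + 1), Γ.card := sum_le_sum fun i _ => card_image_le
      _ = (s + 1) * Γ.card := by simp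
  · intro x hx γ hγ
    refine dbl (γ * x) s fun i hi => ?_
    have := hx (((2 ^ i : ℕ) : ZMod N) * γ) (mem_biUnion.2 ⟨i, mem_range.2 hi,
      mem_image_of_mem (fun g => ((2 ^ i : ℕ) : ZMod N) * g) hγ⟩)
    rwa [mul_assoc] at this

end Pool.Agent.N665.BG
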